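import Mathlib

/-!
Rokhlin entropy, relative and outer Rokhlin entropy of an action of a countable group, factor
maps, and (relatively) distal extensions.
-/

open MeasureTheory Set
open scoped ENNReal

namespace Pool.Agent.Lib.MP_0393a7_an

universe u v w z

variable {G : Type u} {X : Type v}

/-- The Shannon entropy `H(α) = -∑ μ(A_n) log μ(A_n)` of the countable Borel partition `α` whose
cells are `A_n = {x | a x = n}`, `n ∈ ℕ` (some of the cells may be empty). -/
noncomputable def shannon {_mX : MeasurableSpace X} (μ : Measure X) (a : X → ℕ) : ℝ≥0∞ :=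
  ∑' n : ℕ, ENNReal.ofReal (Real.negMulLog (μ.real (a ⁻¹' {n})))

/-- The conditional Shannon entropy `H(α | F) = ∫ -∑ μ(A_n | F) log μ(A_n | F) dμ` of the countable
partition with cells `A_n = {x | a x = n}`, given the sub-σ-algebra `F`. -/
noncomputable def condShannon {mX : MeasurableSpace X} (μ : Measure X) (F : MeasurableSpace X)
    (a : X → ℕ) : ℝ≥0∞ :=
  ∫⁻ x, ∑' n : ℕ, ENNReal.ofReal
    (Real.negMulLog ((μ[(a ⁻¹' {n}).indicator (fun _ => (1 : ℝ)) | F]) x)) ∂μ

/-- `σ-alg_G(α)`: the smallest `G`-invariant σ-algebra containing the cells of the partition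
`α` given by `a`; it is generated by the functions `x ↦ a (g x)`, `g ∈ G`. -/
@[reducible] def sigmaG (G : Type u) [SMul G X] (a : X → ℕ) : MeasurableSpace X :=
  ⨆ g : G, MeasurableSpace.comap (fun x => a (g • x)) ⊤

/-- `F ⊆ H` modulo `μ`-null sets: every set in `F` is equal to a set in `H` up to a null set. -/
def LeMod {_mX : MeasurableSpace X} (μ : Measure X) (F H : MeasurableSpace X) : Prop :=
  ∀ s, MeasurableSet[F] s → ∃ t, MeasurableSet[H] t ∧ s =ᵐ[μ] t

/-- The Rokhlin entropy: the infimum of `H(α)` over the countable Borel partitions `α` with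
`σ-alg_G(α)` the whole Borel σ-algebra modulo null sets. -/
noncomputable def rokhlin (G : Type u) [SMul G X] {mX : MeasurableSpace X} (μ : Measure X) :
    ℝ≥0∞ :=
  ⨅ (a : X → ℕ) (_ : Measurable[mX] a) (_ : LeMod μ mX (sigmaG G a)), shannon μ a

/-- The outer Rokhlin entropy of a σ-algebra `F`: the infimum of `H(α)` over the countable Borel
partitions `α` of `X` with `F ⊆ σ-alg_G(α)` modulo null sets. -/
noncomputable def outerRokhlin (G : Type u) [SMul G X] {mX : MeasurableSpace X} (μ : Measure X)
    (F : MeasurableSpace X) : ℝ≥0∞ :=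
  ⨅ (a : X → ℕ) (_ : Measurable[mX] a) (_ : LeMod μ F (sigmaG G a)), shannon μ a

/-- The relative Rokhlin entropy given `F`: the infimum of `H(α | F)` over the countable Borel
partitions `α` of `X` with `σ-alg_G(α) ∨ F` the whole Borel σ-algebra modulo null sets. -/
noncomputable def relRokhlin (G : Type u) [SMul G X] {mX : MeasurableSpace X} (μ : Measure X)
    (F : MeasurableSpace X) : ℝ≥0∞ :=
  ⨅ (a : X → ℕ) (_ : Measurable[mX] a) (_ : LeMod μ mX (sigmaG G a ⊔ F)), condShannon μ F a

/-- `π : X → Y` is a factor map (`Y` carries the image measure of `μ`): measurable and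
`G`-equivariant up to null sets. -/
def IsFactorMap (G : Type u) [SMul G X] {_mX : MeasurableSpace X} (μ : Measure X) {Y : Type w}
    [MeasurableSpace Y] [SMul G Y] (π : X → Y) : Prop :=
  Measurable π ∧ ∀ g : G, ∀ᵐ x ∂μ, π (g • x) = g • π x

/-- The factor of `X` given by `ρ` is distal over the one given by `π`, in the sense of a
separating sieve (Parry; relative version by Zimmer): there are sets `A 0, A 1, …` of positive
measure such that, for almost all `x, x'` with `π x = π x'`, if for every `n` there is a `g` with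
`g x ∈ A n` and `g x' ∈ A n`, then `ρ x = ρ x'`. -/
def DistalOver (G : Type u) [SMul G X] {_mX : MeasurableSpace X} (μ : Measure X) {Y : Type w}
    {Z : Type z} (π : X → Y) (ρ : X → Z) : Prop :=
  ∃ (A : ℕ → Set X) (X₀ : Set X), (∀ n, MeasurableSet (A n) ∧ 0 < μ (A n)) ∧
    MeasurableSet X₀ ∧ μ X₀ᶜ = 0 ∧
    ∀ x ∈ X₀, ∀ x' ∈ X₀, π x = π x' → (∀ n, ∃ g : G, g • x ∈ A n ∧ g • x' ∈ A n) → ρ x = ρ x'

/-- The factor of `X` given by `ρ` is obtained from the one given by `π` by a countable tower of
isometric extensions: there are a countable index set `I` with a well-founded relation `r`,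
separable metric spaces `K i` and measurable maps `f i : X → K i` such that, on a conull set:
if `π x = π x'` and `f j x = f j x'` for all `j` below `i`, then every `g ∈ G` preserves the distance
of `f i x` and `f i x'`; and if `π x = π x'` and `f i x = f i x'` for all `i`, then `ρ x = ρ x'`. -/
def IsometricTower (G : Type u) [SMul G X] {_mX : MeasurableSpace X} (μ : Measure X) {Y : Type w}
    {Z : Type z} (π : X → Y) (ρ : X → Z) : Prop :=
  ∃ (I : Type) (_ : Countable I) (r : I → I → Prop) (_ : WellFounded r) (K : I → Type)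
    (_ : ∀ i, MetricSpace (K i)) (_ : ∀ i, MeasurableSpace (K i)) (_ : ∀ i, BorelSpace (K i))
    (_ : ∀ i, TopologicalSpace.SeparableSpace (K i)) (f : ∀ i, X → K i) (X₀ : Set X),
    (∀ i, Measurable (f i)) ∧ MeasurableSet X₀ ∧ μ X₀ᶜ = 0 ∧
    (∀ i, ∀ x ∈ X₀, ∀ x' ∈ X₀, π x = π x' → (∀ j, r j i → f j x = f j x') →
      ∀ g : G, dist (f i (g • x)) (f i (g • x')) = dist (f i x) (f i x')) ∧
    ∀ x ∈ X₀, ∀ x' ∈ X₀, π x = π x' → (∀ i, f i x = f i x') → ρ x = ρ x'

end Pool.Agent.Lib.MP_0393a7_an
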