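import Pool.Agent.Lib.MP_0393a7_an.Small

/-!
Entropy estimates: subadditivity of Shannon entropy for countable partitions, partitions of small
entropy, conditional entropy is at most entropy.
-/

open MeasureTheory Set Filter Topology
open scoped ENNReal

namespace Pool.Agent.Lib.MP_0393a7_an

universe u v w z

/-- Gibbs inequality for one term. -/
lemma gibbs_term {p r q : ℝ} (hp : 0 ≤ p) (hr0 : 0 ≤ r) (hq0 : 0 ≤ q)
    (h1 : p ≠ 0 → 0 < r ∧ 0 < q) :
    Real.negMulLog p + p ≤ p * (-Real.log r) + p * (-Real.log q) + r * q := by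
  rcases hp.eq_or_lt with rfl | hp'
  · simp [mul_nonneg hr0 hq0]
  · obtain ⟨hr, hq⟩ := h1 hp'.ne'
    have h2 : Real.log (r * q / p) ≤ r * q / p - 1 :=
      Real.log_le_sub_one_of_pos (by positivity)
    rw [Real.log_div (by positivity) hp'.ne', Real.log_mul hr.ne' hq.ne'] at h2
    have h3 := mul_le_mul_of_nonneg_left h2 hp
    have h4 : p * (r * q / p - 1) = r * q - p := by field_simp
    rw [h4] at h3
    unfold Real.negMulLog
    nlinarith

/-- The join of two countable partitions. -/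
def join {X : Type v} (a b : X → ℕ) : X → ℕ := fun x => Nat.pair (a x) (b x)

lemma measurable_join {X : Type v} [MeasurableSpace X] {a b : X → ℕ} (ha : Measurable a)
    (hb : Measurable b) : Measurable (join a b) :=
  (measurable_of_countable (fun p : ℕ × ℕ => Nat.pair p.1 p.2)).comp (ha.prodMk hb)

lemma sum_fibers {X : Type v} [MeasurableSpace X] (μ : Measure X)
    {a : X → ℕ} (ha : Measurable a) {s : Set X} (hs : MeasurableSet s) :
    ∑' i, μ (a ⁻¹' {i} ∩ s) = μ s := by
  have h : s = ⋃ i, (a ⁻¹' {i} ∩ s) := by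
    ext x; simp
  conv_rhs => rw [h]
  rw [measure_iUnion]
  · intro i j hij
    simp only [Function.onFun]
    refine Disjoint.mono inter_subset_left inter_subset_left ?_
    exact Disjoint.preimage _ (by simpa using hij)
  · intro i
    exact (ha (measurableSet_singleton i)).inter hs

lemma neg_log_nonneg {X : Type v} [MeasurableSpace X] (μ : Measure X) [IsProbabilityMeasure μ]
    (s : Set X) : 0 ≤ -Real.log (μ.real s) := by
  have h1 : μ.real s ≤ 1 := measureReal_le_one
  have h0 : 0 ≤ μ.real s := measureReal_nonneg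
  have := Real.log_nonpos h0 h1
  linarith

/-- Subadditivity of the Shannon entropy for countable partitions. -/
lemma shannon_join_le {X : Type v} [MeasurableSpace X] (μ : Measure X) [IsProbabilityMeasure μ]
    {a b : X → ℕ} (ha : Measurable a) (hb : Measurable b) :
    shannon μ (join a b) ≤ shannon μ a + shannon μ b := by
  have hA : ∀ i, MeasurableSet (a ⁻¹' {i}) := fun i => ha (measurableSet_singleton i)
  have hB : ∀ j, MeasurableSet (b ⁻¹' {j}) := fun j => hb (measurableSet_singleton j)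
  -- rewrite the entropy of the join as a double sum
  have hcell : ∀ i j, (join a b) ⁻¹' {Nat.pair i j} = a ⁻¹' {i} ∩ b ⁻¹' {j} := by
    intro i j
    ext x
    simp [join, Nat.pair_eq_pair]
  have h1 : shannon μ (join a b) =
      ∑' i, ∑' j, ENNReal.ofReal (Real.negMulLog (μ.real (a ⁻¹' {i} ∩ b ⁻¹' {j}))) := by
    unfold shannon
    rw [← Equiv.tsum_eq Nat.pairEquiv, ENNReal.tsum_prod']
    refine tsum_congr fun i => tsum_congr fun j => ?_
    rw [← hcell i j]; rfl
  -- termwise inequality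
  have hterm : ∀ i j, ENNReal.ofReal (Real.negMulLog (μ.real (a ⁻¹' {i} ∩ b ⁻¹' {j}))) +
      μ (a ⁻¹' {i} ∩ b ⁻¹' {j}) ≤
      μ (a ⁻¹' {i} ∩ b ⁻¹' {j}) * ENNReal.ofReal (-Real.log (μ.real (a ⁻¹' {i}))) +
      μ (a ⁻¹' {i} ∩ b ⁻¹' {j}) * ENNReal.ofReal (-Real.log (μ.real (b ⁻¹' {j}))) +
      μ (a ⁻¹' {i}) * μ (b ⁻¹' {j}) := by
    intro i j
    have e : ∀ s : Set X, μ s = ENNReal.ofReal (μ.real s) := fun s => by
      rw [ofReal_measureReal]
    have hn : 0 ≤ Real.negMulLog (μ.real (a ⁻¹' {i} ∩ b ⁻¹' {j})) :=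
      Real.negMulLog_nonneg measureReal_nonneg measureReal_le_one
    have l1 := neg_log_nonneg μ (a ⁻¹' {i})
    have l2 := neg_log_nonneg μ (b ⁻¹' {j})
    have m0 : 0 ≤ μ.real (a ⁻¹' {i} ∩ b ⁻¹' {j}) := measureReal_nonneg
    have m1 : 0 ≤ μ.real (a ⁻¹' {i}) := measureReal_nonneg
    have m2 : 0 ≤ μ.real (b ⁻¹' {j}) := measureReal_nonneg
    rw [e (a ⁻¹' {i} ∩ b ⁻¹' {j}), e (a ⁻¹' {i}), e (b ⁻¹' {j}), ← ENNReal.ofReal_add hn m0,
      ← ENNReal.ofReal_mul m0, ← ENNReal.ofReal_mul m0, ← ENNReal.ofReal_mul m1,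
      ← ENNReal.ofReal_add (by positivity) (by positivity),
      ← ENNReal.ofReal_add (by positivity) (by positivity)]
    apply ENNReal.ofReal_le_ofReal
    apply gibbs_term m0 m1 m2
    intro hne
    have hpos : 0 < μ.real (a ⁻¹' {i} ∩ b ⁻¹' {j}) := lt_of_le_of_ne m0 (Ne.symm hne)
    exact ⟨hpos.trans_le (measureReal_mono inter_subset_left),
      hpos.trans_le (measureReal_mono inter_subset_right)⟩
  have hsum := ENNReal.tsum_le_tsum fun i => ENNReal.tsum_le_tsum fun j => hterm i j
  simp only [ENNReal.tsum_add, ENNReal.tsum_mul_right, ENNReal.tsum_mul_left] at hsum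
  have s1 : ∀ i, ∑' j, μ (a ⁻¹' {i} ∩ b ⁻¹' {j}) = μ (a ⁻¹' {i}) := fun i => by
    rw [← sum_fibers μ hb (hA i)]
    exact tsum_congr fun j => by rw [inter_comm]
  have s2 : ∑' i, μ (a ⁻¹' {i}) = 1 := by
    have := sum_fibers μ ha MeasurableSet.univ
    simpa using this
  have s3 : ∑' j, μ (b ⁻¹' {j}) = 1 := by
    have := sum_fibers μ hb MeasurableSet.univ
    simpa using this
  have s4 : ∑' i, ∑' j, μ (a ⁻¹' {i} ∩ b ⁻¹' {j}) *
      ENNReal.ofReal (-Real.log (μ.real (b ⁻¹' {j}))) = shannon μ b := by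
    rw [ENNReal.tsum_comm]
    unfold shannon
    refine tsum_congr fun j => ?_
    rw [ENNReal.tsum_mul_right, sum_fibers μ ha (hB j)]
    rw [← ofReal_measureReal (μ := μ) (s := b ⁻¹' {j}), ← ENNReal.ofReal_mul measureReal_nonneg]
    congr 1
    unfold Real.negMulLog
    ring
  have s5 : ∑' i, μ (a ⁻¹' {i}) * ENNReal.ofReal (-Real.log (μ.real (a ⁻¹' {i}))) =
      shannon μ a := by
    unfold shannon
    refine tsum_congr fun i => ?_
    rw [← ofReal_measureReal (μ := μ) (s := a ⁻¹' {i}), ← ENNReal.ofReal_mul measureReal_nonneg]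
    congr 1
    unfold Real.negMulLog
    ring
  simp only [s1, s2, s3, s4, s5, mul_one] at hsum
  rw [← h1] at hsum
  exact (ENNReal.add_le_add_iff_right ENNReal.one_ne_top).1 hsum

/-- Conditional entropy is at most entropy. -/
lemma condShannon_le {X : Type v} {F : MeasurableSpace X} {mX : MeasurableSpace X}
    (μ : Measure X) [IsProbabilityMeasure μ] (hF : F ≤ mX) {a : X → ℕ} (ha : Measurable a) :
    condShannon μ F a ≤ shannon μ a := by
  unfold condShannon shannon
  have hmeas : ∀ n : ℕ, AEMeasurable (fun x => ENNReal.ofReal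
      (Real.negMulLog ((μ[(a ⁻¹' {n}).indicator (fun _ => (1 : ℝ)) | F]) x))) μ := by
    intro n
    refine ENNReal.measurable_ofReal.comp_aemeasurable ?_
    exact Real.continuous_negMulLog.measurable.comp_aemeasurable
      (stronglyMeasurable_condExp.mono hF).measurable.aemeasurable
  rw [lintegral_tsum hmeas]
  refine ENNReal.tsum_le_tsum fun n => ?_
  have hA : MeasurableSet (a ⁻¹' {n}) := ha (measurableSet_singleton n)
  set f : X → ℝ := μ[(a ⁻¹' {n}).indicator (fun _ => (1 : ℝ)) | F] with hf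
  have hi : Integrable ((a ⁻¹' {n}).indicator (fun _ => (1 : ℝ))) μ :=
    (integrable_const 1).indicator hA
  have hfi : Integrable f μ := integrable_condExp
  have h0 : 0 ≤ᵐ[μ] f := condExp_nonneg (Filter.Eventually.of_forall fun x =>
    indicator_nonneg (fun _ _ => zero_le_one) x)
  have h1 : f ≤ᵐ[μ] fun _ => (1 : ℝ) := by
    have h2 : f ≤ᵐ[μ] μ[(fun _ => (1 : ℝ)) | F] := condExp_mono hi (integrable_const 1)
      (Filter.Eventually.of_forall fun x => indicator_le_self' (fun _ _ => zero_le_one) x)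
    rwa [condExp_const hF] at h2
  have hmf : AEStronglyMeasurable f μ := hfi.aestronglyMeasurable
  have hη : ∀ᵐ x ∂μ, 0 ≤ Real.negMulLog (f x) := by
    filter_upwards [h0, h1] with x hx0 hx1
    exact Real.negMulLog_nonneg hx0 hx1
  have hηb : ∀ᵐ x ∂μ, ‖Real.negMulLog (f x)‖ ≤ 1 := by
    filter_upwards [h0, h1] with x hx0 hx1
    have hx0' : 0 ≤ f x := hx0
    rw [Real.norm_of_nonneg (Real.negMulLog_nonneg hx0 hx1)]
    unfold Real.negMulLog
    rcases hx0'.eq_or_lt with h | h
    · rw [← h]; simp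
    · have := Real.one_sub_inv_le_log_of_pos h
      have h5 := mul_le_mul_of_nonneg_left this hx0'
      have h6 : f x * (1 - (f x)⁻¹) = f x - 1 := by field_simp
      rw [h6] at h5
      linarith
  have hgi : Integrable (Real.negMulLog ∘ f) μ :=
    Integrable.of_bound (Real.continuous_negMulLog.comp_aestronglyMeasurable hmf) 1 hηb
  have hJ := Real.concaveOn_negMulLog.le_map_integral
    Real.continuous_negMulLog.continuousOn isClosed_Ici h0 hfi hgi
  have hint : ∫ x, f x ∂μ = μ.real (a ⁻¹' {n}) := by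
    rw [hf, integral_condExp hF]
    rw [integral_indicator_const (1 : ℝ) hA]
    simp
  rw [hint] at hJ
  have hL := ofReal_integral_eq_lintegral_ofReal hgi hη
  simp only [Function.comp_apply] at hL
  rw [← hL]
  exact ENNReal.ofReal_le_ofReal hJ

/-- Facts on conditional probabilities used below. -/
lemma condProb_facts {X : Type v} {F : MeasurableSpace X} {mX : MeasurableSpace X}
    (μ : Measure X) [IsProbabilityMeasure μ] (hF : F ≤ mX) {A : Set X} (hA : MeasurableSet A) :
    (∀ᵐ x ∂μ, (μ[A.indicator (fun _ => (1 : ℝ)) | F]) x ∈ Ici (0 : ℝ)) ∧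
    (∀ᵐ x ∂μ, 0 ≤ Real.negMulLog ((μ[A.indicator (fun _ => (1 : ℝ)) | F]) x)) ∧
    Integrable (Real.negMulLog ∘ (μ[A.indicator (fun _ => (1 : ℝ)) | F])) μ := by
  set f : X → ℝ := μ[A.indicator (fun _ => (1 : ℝ)) | F] with hf
  have hi : Integrable (A.indicator (fun _ => (1 : ℝ))) μ := (integrable_const 1).indicator hA
  have hfi : Integrable f μ := integrable_condExp
  have h0 : 0 ≤ᵐ[μ] f := condExp_nonneg (Filter.Eventually.of_forall fun x =>
    indicator_nonneg (fun _ _ => zero_le_one) x)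
  have h1 : f ≤ᵐ[μ] fun _ => (1 : ℝ) := by
    have h2 : f ≤ᵐ[μ] μ[(fun _ => (1 : ℝ)) | F] := condExp_mono hi (integrable_const 1)
      (Filter.Eventually.of_forall fun x => indicator_le_self' (fun _ _ => zero_le_one) x)
    rwa [condExp_const hF] at h2
  have hmf : AEStronglyMeasurable f μ := hfi.aestronglyMeasurable
  have hη : ∀ᵐ x ∂μ, 0 ≤ Real.negMulLog (f x) := by
    filter_upwards [h0, h1] with x hx0 hx1
    exact Real.negMulLog_nonneg hx0 hx1
  have hηb : ∀ᵐ x ∂μ, ‖Real.negMulLog (f x)‖ ≤ 1 := by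
    filter_upwards [h0, h1] with x hx0 hx1
    have hx0' : 0 ≤ f x := hx0
    rw [Real.norm_of_nonneg (Real.negMulLog_nonneg hx0 hx1)]
    unfold Real.negMulLog
    rcases hx0'.eq_or_lt with h | h
    · rw [← h]; simp
    · have := Real.one_sub_inv_le_log_of_pos h
      have h5 := mul_le_mul_of_nonneg_left this hx0'
      have h6 : f x * (1 - (f x)⁻¹) = f x - 1 := by field_simp
      rw [h6] at h5
      linarith
  exact ⟨h0, hη, Integrable.of_bound (Real.continuous_negMulLog.comp_aestronglyMeasurable hmf) 1 hηb⟩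

/-- Conditional entropy decreases when the σ-algebra increases (modulo null sets). -/
lemma condShannon_mono {X : Type v} {F F' : MeasurableSpace X} {mX : MeasurableSpace X}
    (μ : Measure X) [IsProbabilityMeasure μ] (hF : F ≤ mX) (hF' : F' ≤ mX) (hle : LeMod μ F F')
    {a : X → ℕ} (ha : Measurable a) : condShannon μ F' a ≤ condShannon μ F a := by
  unfold condShannon
  have hmeas : ∀ (H : MeasurableSpace X), H ≤ mX → ∀ n : ℕ, AEMeasurable (fun x => ENNReal.ofReal
      (Real.negMulLog ((μ[(a ⁻¹' {n}).indicator (fun _ => (1 : ℝ)) | H]) x))) μ := by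
    intro H hH n
    refine ENNReal.measurable_ofReal.comp_aemeasurable ?_
    exact Real.continuous_negMulLog.measurable.comp_aemeasurable
      (stronglyMeasurable_condExp.mono hH).measurable.aemeasurable
  rw [lintegral_tsum (hmeas F' hF'), lintegral_tsum (hmeas F hF)]
  refine ENNReal.tsum_le_tsum fun n => ?_
  have hA : MeasurableSet[mX] (a ⁻¹' {n}) := ha (measurableSet_singleton n)
  obtain ⟨p1, p2, p3⟩ := condProb_facts μ hF hA
  obtain ⟨q1, q2, q3⟩ := condProb_facts μ hF' hA
  set u : X → ℝ := (a ⁻¹' {n}).indicator (fun _ => (1 : ℝ)) with hu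
  have hi : Integrable u μ := (integrable_const 1).indicator hA
  -- the tower property modulo null sets
  have htow : μ[μ[u | F'] | F] =ᵐ[μ] μ[u | F] := by
    refine ae_eq_condExp_of_forall_setIntegral_eq hF hi
      (fun s _ _ => integrable_condExp.integrableOn) ?_
      stronglyMeasurable_condExp.aestronglyMeasurable
    intro s hs _
    obtain ⟨t, ht, hst⟩ := hle s hs
    rw [setIntegral_condExp hF integrable_condExp hs, setIntegral_congr_set hst,
      setIntegral_condExp hF' hi ht, setIntegral_congr_set hst]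
  have hJ := Real.concaveOn_negMulLog.condExp_map_le (μ := μ) hF
    (Real.continuous_negMulLog.upperSemicontinuous.upperSemicontinuousOn _) q1 isClosed_Ici
    (integrable_condExp (m := F') (f := u)) q3
  have hJ2 : μ[Real.negMulLog ∘ (μ[u | F']) | F] ≤ᵐ[μ] Real.negMulLog ∘ (μ[u | F]) := by
    filter_upwards [hJ, htow] with x hx1 hx2
    refine hx1.trans ?_
    simp only [Function.comp_apply]
    rw [hx2]
  have hint : ∫ x, (Real.negMulLog ∘ (μ[u | F'])) x ∂μ ≤
      ∫ x, (Real.negMulLog ∘ (μ[u | F])) x ∂μ := by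
    rw [← integral_condExp hF]
    exact integral_mono_ae integrable_condExp p3 hJ2
  have hL' := ofReal_integral_eq_lintegral_ofReal q3 q2
  have hL := ofReal_integral_eq_lintegral_ofReal p3 p2
  simp only [Function.comp_apply] at hL hL' hint
  rw [← hL, ← hL']
  exact ENNReal.ofReal_le_ofReal hint

/-- A partition of small entropy whose `n`-th cell (`n ≥ 1`) is a set of positive measure
contained in a given set `A (n-1)` of positive measure. -/
lemma exists_partition {X : Type v} [MeasurableSpace X] [StandardBorelSpace X] (μ : Measure X)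
    [IsProbabilityMeasure μ] (hna : ∀ x, μ {x} = 0) (A : ℕ → Set X)
    (hA : ∀ n, MeasurableSet (A n) ∧ 0 < μ (A n)) {ε : ℝ≥0∞} (hε : 0 < ε) :
    ∃ a : X → ℕ, Measurable a ∧ shannon μ a ≤ ε ∧
      ∀ n, a ⁻¹' {n + 1} ⊆ A n ∧ 0 < μ (a ⁻¹' {n + 1}) := by
  classical
  obtain ⟨e, he0, he⟩ : ∃ e : ℝ, 0 < e ∧ ENNReal.ofReal e ≤ ε := by
    rcases eq_or_ne ε ⊤ with h | h
    · exact ⟨1, one_pos, by rw [h]; exact le_top⟩
    · exact ⟨ε.toReal, ENNReal.toReal_pos hε.ne' h, by rw [ENNReal.ofReal_toReal h]⟩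
  have hδ : ∀ n : ℕ, ∃ δ : ℝ, 0 < δ ∧ δ ≤ e * (1 / 2) ^ (n + 2) ∧
      ∀ t : ℝ, 0 ≤ t → t ≤ δ → Real.negMulLog t ≤ e * (1 / 2) ^ (n + 2) := by
    intro n
    have hpos : 0 < e * (1 / 2 : ℝ) ^ (n + 2) := by positivity
    have hc : Tendsto Real.negMulLog (𝓝 0) (𝓝 0) := by
      have := Real.continuous_negMulLog.tendsto 0
      simpa using this
    have hev := hc.eventually (gt_mem_nhds hpos)
    rw [Metric.eventually_nhds_iff] at hev
    obtain ⟨r, hr, hr'⟩ := hev
    refine ⟨min (r / 2) (e * (1 / 2) ^ (n + 2)), lt_min (by positivity) hpos, min_le_right _ _, ?_⟩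
    intro t ht0 ht
    refine (hr' ?_).le
    rw [Real.dist_eq, sub_zero, abs_of_nonneg ht0]
    have := ht.trans (min_le_left _ _)
    linarith
  choose δ hδ0 hδ1 hδ2 using hδ
  -- the sequence of sets
  have hstep : ∀ (n : ℕ) (c : ℝ≥0∞), 0 < c → ∃ B ⊆ A n, MeasurableSet B ∧ 0 < μ B ∧
      μ B < min (ENNReal.ofReal (δ n)) c := fun n c hc =>
    exists_small μ hna (hA n).1 (hA n).2 (lt_min (ENNReal.ofReal_pos.2 (hδ0 n)) hc)
  let S := {B : Set X // 0 < μ B}
  have hS4 : ∀ B : S, 0 < μ B.1 / 4 := fun B => ENNReal.div_pos B.2.ne' (by norm_num)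
  let step : ℕ → S → S := fun n B => ⟨(hstep n (μ B.1 / 4) (hS4 B)).choose,
    (hstep n (μ B.1 / 4) (hS4 B)).choose_spec.2.2.1⟩
  have step_spec : ∀ n B, (step n B).1 ⊆ A n ∧ MeasurableSet (step n B).1 ∧
      μ (step n B).1 < ENNReal.ofReal (δ n) ∧ μ (step n B).1 ≤ μ B.1 / 4 := by
    intro n B
    have h := (hstep n (μ B.1 / 4) (hS4 B)).choose_spec
    exact ⟨h.1, h.2.1, h.2.2.2.trans_le (min_le_left _ _),
      (h.2.2.2.trans_le (min_le_right _ _)).le⟩
  let f : ℕ → S := fun n => Nat.rec (step 0 ⟨univ, by simp⟩) (fun k B => step (k + 1) B) n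
  have f0 : f 0 = step 0 ⟨univ, by simp⟩ := rfl
  have fs : ∀ n, f (n + 1) = step (n + 1) (f n) := fun n => rfl
  have fA : ∀ n, (f n).1 ⊆ A n ∧ MeasurableSet (f n).1 ∧ μ (f n).1 < ENNReal.ofReal (δ n) := by
    intro n
    cases n with
    | zero => rw [f0]; exact ⟨(step_spec 0 _).1, (step_spec 0 _).2.1, (step_spec 0 _).2.2.1⟩
    | succ n => rw [fs]; exact ⟨(step_spec _ _).1, (step_spec _ _).2.1, (step_spec _ _).2.2.1⟩
  have f4 : ∀ n, μ (f (n + 1)).1 ≤ μ (f n).1 * (1 / 4) := by
    intro n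
    rw [fs, mul_one_div]
    exact (step_spec _ _).2.2.2
  have f4k : ∀ n k, μ (f (n + k)).1 ≤ μ (f n).1 * (1 / 4) ^ k := by
    intro n k
    induction k with
    | zero => simp
    | succ k ih =>
      calc μ (f (n + (k + 1))).1 ≤ μ (f (n + k)).1 * (1 / 4) := f4 (n + k)
        _ ≤ (μ (f n).1 * (1 / 4) ^ k) * (1 / 4) := by gcongr
        _ = μ (f n).1 * (1 / 4) ^ (k + 1) := by rw [mul_assoc, pow_succ]
  set B : ℕ → Set X := fun n => (f n).1 \ ⋃ k : ℕ, (f (n + k + 1)).1 with hB
  have hBm : ∀ n, MeasurableSet (B n) := fun n =>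
    (fA n).2.1.diff (MeasurableSet.iUnion fun k => (fA (n + k + 1)).2.1)
  have hBdis : ∀ m n, m < n → Disjoint (B m) (B n) := by
    intro m n hmn
    rw [Set.disjoint_left]
    intro x hx hx'
    obtain ⟨k, rfl⟩ : ∃ k, n = m + k + 1 := ⟨n - m - 1, by omega⟩
    exact hx.2 (mem_iUnion.2 ⟨k, hx'.1⟩)
  have htail : ∀ n, μ (⋃ k : ℕ, (f (n + k + 1)).1) < μ (f n).1 := by
    intro n
    have h1 : μ (⋃ k : ℕ, (f (n + k + 1)).1) ≤ μ (f n).1 * (1 / 3) := by
      calc μ (⋃ k : ℕ, (f (n + k + 1)).1) ≤ ∑' k : ℕ, μ (f (n + k + 1)).1 := measure_iUnion_le _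
        _ ≤ ∑' k : ℕ, μ (f n).1 * (1 / 4) ^ (k + 1) :=
            ENNReal.tsum_le_tsum fun k => by
              have := f4k n (k + 1)
              rwa [← add_assoc] at this
        _ = μ (f n).1 * (1 / 3) := by
            rw [ENNReal.tsum_mul_left]
            congr 1
            have h2 : ∀ k : ℕ, (1 / 4 : ℝ≥0∞) ^ (k + 1) = ENNReal.ofReal ((1 / 4 : ℝ) ^ (k + 1)) := by
              intro k
              rw [ENNReal.ofReal_pow (by norm_num), ENNReal.ofReal_div_of_pos (by norm_num)]
              simp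
            simp only [h2]
            rw [← ENNReal.ofReal_tsum_of_nonneg (fun k => by positivity)
              ((summable_nat_add_iff 1).2 (summable_geometric_of_lt_one (by norm_num) (by norm_num)))]
            simp only [pow_succ]
            rw [tsum_mul_right, tsum_geometric_of_lt_one (by norm_num) (by norm_num)]
            rw [show ((1 - 1 / 4 : ℝ)⁻¹ * (1 / 4)) = 1 / 3 by norm_num,
              ENNReal.ofReal_div_of_pos (by norm_num)]
            simp
    refine h1.trans_lt ?_
    have h3 : μ (f n).1 ≠ ⊤ := measure_ne_top _ _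
    have h4 : μ (f n).1 ≠ 0 := (f n).2.ne'
    calc μ (f n).1 * (1 / 3) < μ (f n).1 * 1 := by
          rw [ENNReal.mul_lt_mul_iff_right h4 h3]
          rw [ENNReal.div_lt_iff] <;> norm_num
      _ = μ (f n).1 := mul_one _
  have hBpos : ∀ n, 0 < μ (B n) := by
    intro n
    by_contra hcon
    have h0 : μ (B n) = 0 := le_antisymm (not_lt.1 hcon) bot_le
    have h1 : μ (f n).1 ≤ μ (B n) + μ (⋃ k : ℕ, (f (n + k + 1)).1) := by
      refine (measure_mono ?_).trans (measure_union_le _ _)
      intro x hx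
      by_cases h : x ∈ ⋃ k : ℕ, (f (n + k + 1)).1
      · exact Or.inr h
      · exact Or.inl ⟨hx, h⟩
    rw [h0, zero_add] at h1
    exact absurd (htail n) (not_lt.2 h1)
  -- the labelling
  set a : X → ℕ := fun x => if h : ∃ n, x ∈ B n then Nat.find h + 1 else 0 with ha
  have ha1 : ∀ n, a ⁻¹' {n + 1} = B n := by
    intro n
    ext x
    simp only [ha, mem_preimage, mem_singleton_iff]
    constructor
    · intro h
      split_ifs at h with h'
      · have h2 : Nat.find h' = n := by omega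
        rw [← h2]; exact Nat.find_spec h'
    · intro h
      have h' : ∃ n, x ∈ B n := ⟨n, h⟩
      rw [dif_pos h']
      have h2 : Nat.find h' ≤ n := Nat.find_min' h' h
      rcases h2.lt_or_eq with h3 | h3
      · exact absurd h (Set.disjoint_left.1 (hBdis _ _ h3) (Nat.find_spec h'))
      · rw [h3]
  have ha0 : a ⁻¹' {0} = (⋃ n, B n)ᶜ := by
    ext x
    simp only [ha, mem_preimage, mem_singleton_iff, mem_compl_iff, mem_iUnion]
    constructor
    · intro h h'
      rw [dif_pos h'] at h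
      omega
    · intro h
      rw [dif_neg h]
  have ham : Measurable a := by
    refine measurable_to_countable' fun n => ?_
    cases n with
    | zero => rw [ha0]; exact (MeasurableSet.iUnion hBm).compl
    | succ n => rw [ha1]; exact hBm n
  refine ⟨a, ham, ?_, fun n => ?_⟩
  · have hgeo : ∑' n : ℕ, ENNReal.ofReal (e * (1 / 2) ^ (n + 2)) = ENNReal.ofReal (e / 2) := by
      rw [← ENNReal.ofReal_tsum_of_nonneg (fun k => by positivity)
        (((summable_nat_add_iff 2).2
          (summable_geometric_of_lt_one (by norm_num) (by norm_num))).mul_left e)]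
      congr 1
      rw [tsum_mul_left]
      simp only [pow_add]
      rw [tsum_mul_right, tsum_geometric_of_lt_one (by norm_num) (by norm_num)]
      ring
    have hBδ : ∀ n, μ (B n) ≤ ENNReal.ofReal (δ n) := fun n =>
      (measure_mono sdiff_subset).trans (fA n).2.2.le
    have hBr : ∀ n, μ.real (B n) ≤ δ n := fun n => by
      have := ENNReal.toReal_mono ENNReal.ofReal_ne_top (hBδ n)
      rwa [ENNReal.toReal_ofReal (hδ0 n).le] at this
    unfold shannon
    rw [tsum_eq_zero_add' ENNReal.summable]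
    have t0 : ENNReal.ofReal (Real.negMulLog (μ.real (a ⁻¹' {0}))) ≤ ENNReal.ofReal (e / 2) := by
      have hUm : MeasurableSet (⋃ n, B n) := MeasurableSet.iUnion hBm
      have h1 : ENNReal.ofReal (Real.negMulLog (μ.real (a ⁻¹' {0}))) ≤ μ (⋃ n, B n) := by
        rw [← ofReal_measureReal (μ := μ) (s := ⋃ n, B n)]
        apply ENNReal.ofReal_le_ofReal
        have h2 : μ.real (a ⁻¹' {0}) = 1 - μ.real (⋃ n, B n) := by
          rw [ha0, probReal_compl_eq_one_sub hUm]
        rw [h2]
        have h3 : μ.real (⋃ n, B n) ≤ 1 := measureReal_le_one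
        set t := μ.real (⋃ n, B n)
        rcases h3.eq_or_lt with h | h
        · rw [h]; simp
        · have h5 := Real.one_sub_inv_le_log_of_pos (sub_pos.2 h)
          have h6 := mul_le_mul_of_nonneg_left h5 (sub_pos.2 h).le
          have h7 : (1 - t) * (1 - (1 - t)⁻¹) = -t := by
            have : (1 - t) ≠ 0 := (sub_pos.2 h).ne'
            field_simp
            ring
          rw [h7] at h6
          unfold Real.negMulLog
          linarith
      refine h1.trans ((measure_iUnion_le _).trans ?_)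
      rw [← hgeo]
      exact ENNReal.tsum_le_tsum fun n => (hBδ n).trans (ENNReal.ofReal_le_ofReal (hδ1 n))
    have t1 : ∑' n : ℕ, ENNReal.ofReal (Real.negMulLog (μ.real (a ⁻¹' {n + 1}))) ≤
        ENNReal.ofReal (e / 2) := by
      rw [← hgeo]
      refine ENNReal.tsum_le_tsum fun n => ?_
      rw [ha1]
      exact ENNReal.ofReal_le_ofReal (hδ2 n _ measureReal_nonneg (hBr n))
    calc _ ≤ ENNReal.ofReal (e / 2) + ENNReal.ofReal (e / 2) := add_le_add t0 t1
      _ = ENNReal.ofReal e := by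
        rw [← ENNReal.ofReal_add (by positivity) (by positivity), add_halves]
      _ ≤ ε := he
  · rw [ha1]
    exact ⟨sdiff_subset.trans (fA n).1, hBpos n⟩

end Pool.Agent.Lib.MP_0393a7_an
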