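import Pool.Agent.Lib.MP_0393a7_an.Entropy

/-!
Main steps: a sieve gives a partition of small entropy which together with `Y` generates `Z`;
consequences for the outer, relative and plain Rokhlin entropy.
-/

open MeasureTheory Set Filter Topology
open scoped ENNReal

namespace Pool.Agent.Lib.MP_0393a7_an

universe u v w z t

section LeMod

variable {X : Type v} {F H K : MeasurableSpace X} [mX : MeasurableSpace X] {μ : Measure X}

lemma leMod_iff :
    @LeMod X mX μ F H ↔ F ≤ eventuallyMeasurableSpace H (ae μ) := Iff.rfl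

lemma LeMod.of_le (h : F ≤ H) : @LeMod X mX μ F H :=
  fun s hs => ⟨s, h s hs, Filter.EventuallyEq.refl _ _⟩

lemma LeMod.trans (h1 : @LeMod X mX μ F H) (h2 : @LeMod X mX μ H K) :
    @LeMod X mX μ F K := by
  intro s hs
  obtain ⟨t, ht, hst⟩ := h1 s hs
  obtain ⟨r, hr, htr⟩ := h2 t ht
  exact ⟨r, hr, hst.trans htr⟩

lemma LeMod.sup (h1 : @LeMod X mX μ F K) (h2 : @LeMod X mX μ H K) :
    @LeMod X mX μ (F ⊔ H) K :=
  leMod_iff.2 (sup_le (leMod_iff.1 h1) (leMod_iff.1 h2))

end LeMod

lemma sigmaG_join_left (G : Type u) {X : Type v} [SMul G X] (a b : X → ℕ) :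
    sigmaG G a ≤ sigmaG G (join a b) := by
  refine iSup_mono fun g => ?_
  rintro s ⟨t, -, rfl⟩
  refine ⟨(fun n => n.unpair.1) ⁻¹' t, trivial, ?_⟩
  ext x; simp [join]

lemma sigmaG_join_right (G : Type u) {X : Type v} [SMul G X] (a b : X → ℕ) :
    sigmaG G b ≤ sigmaG G (join a b) := by
  refine iSup_mono fun g => ?_
  rintro s ⟨t, -, rfl⟩
  refine ⟨(fun n => n.unpair.2) ⁻¹' t, trivial, ?_⟩
  ext x; simp [join]

lemma comap_itinerary (G : Type u) {X : Type v} {Y : Type w} [SMul G X] [MeasurableSpace Y]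
    (a : X → ℕ) (π : X → Y) :
    MeasurableSpace.comap (fun x => ((fun g : G => a (g • x)), π x)) inferInstance =
      sigmaG G a ⊔ MeasurableSpace.comap π inferInstance := by
  refine (MeasurableSpace.comap_prodMk (fun x => (fun g : G => a (g • x))) π).trans ?_
  congr 1
  unfold MeasurableSpace.pi sigmaG
  rw [MeasurableSpace.comap_iSup]
  refine iSup_congr fun g => ?_
  rw [MeasurableSpace.comap_comp]
  rfl

variable {G : Type u} {X : Type v} [Group G] [Countable G] [mX : MeasurableSpace X]
  [StandardBorelSpace X] [MulAction G X] [MeasurableConstSMul G X] (μ : Measure X)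
  [IsProbabilityMeasure μ] [ErgodicSMul G X μ]

/-- The main step: if `Z` is distal over `Y` then there are partitions of arbitrarily small
entropy which together with `Y` generate `Z`. -/
lemma exists_small_generating (hna : ∀ x, μ {x} = 0) {Y : Type w} {Z : Type z}
    [MeasurableSpace Y] [StandardBorelSpace Y] [MeasurableSpace Z] {π : X → Y} {ρ : X → Z}
    (hπ : Measurable π) (hρ : Measurable ρ) (hd : DistalOver G μ π ρ) {ε : ℝ≥0∞} (hε : 0 < ε) :
    ∃ a : X → ℕ, Measurable a ∧ shannon μ a ≤ ε ∧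
      @LeMod X mX μ (MeasurableSpace.comap ρ inferInstance)
        (sigmaG G a ⊔ MeasurableSpace.comap π inferInstance) := by
  obtain ⟨A, X₀, hA, hX₀, hX₀', hsep⟩ := hd
  obtain ⟨a, ham, hae, hacell⟩ := exists_partition μ hna A hA hε
  refine ⟨a, ham, hae, ?_⟩
  rw [← comap_itinerary]
  set Φ : X → (G → ℕ) × Y := fun x => ((fun g : G => a (g • x)), π x) with hΦ
  have hΦm : Measurable Φ := by
    refine Measurable.prodMk ?_ hπ
    exact measurable_pi_lambda _ fun g => ham.comp (measurable_const_smul g)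
  set X₁ : Set X := X₀ ∩ ⋂ n : ℕ, ⋃ g : G, (fun x => g • x) ⁻¹' (a ⁻¹' {n + 1}) with hX₁
  have hX₁m : MeasurableSet X₁ := hX₀.inter (MeasurableSet.iInter fun n =>
    MeasurableSet.iUnion fun g => measurable_const_smul g (ham (measurableSet_singleton _)))
  have hX₁c : μ X₁ᶜ = 0 := by
    have h1 : ∀ᵐ x ∂μ, x ∈ X₀ := by rw [ae_iff]; exact hX₀'
    have h2 : ∀ᵐ x ∂μ, ∀ n : ℕ, ∃ g : G, g • x ∈ a ⁻¹' {n + 1} := by
      rw [ae_all_iff]
      intro n
      exact ae_exists_smul_mem μ (ham (measurableSet_singleton _)) (hacell n).2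
    have h3 : ∀ᵐ x ∂μ, x ∈ X₁ := by
      filter_upwards [h1, h2] with x hx1 hx2
      exact ⟨hx1, mem_iInter.2 fun n => mem_iUnion.2 (hx2 n)⟩
    rw [ae_iff] at h3
    exact h3
  refine leMod_of_separates μ hΦm hρ hX₁m hX₁c ?_
  intro x hx x' hx' hxx
  have e1 : ∀ g : G, a (g • x) = a (g • x') := fun g => congrFun (congrArg Prod.fst hxx) g
  have e2 : π x = π x' := congrArg Prod.snd hxx
  refine hsep x hx.1 x' hx'.1 e2 fun n => ?_
  obtain ⟨g, hg⟩ := mem_iUnion.1 (mem_iInter.1 hx.2 n)
  refine ⟨g, (hacell n).1 hg, (hacell n).1 ?_⟩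
  have hg' : a (g • x) = n + 1 := hg
  show a (g • x') = n + 1
  rw [← e1]; exact hg'

/-- The outer Rokhlin entropies of `Z` and `Y` agree if `Z` is distal over `Y`. -/
lemma outer_eq (hna : ∀ x, μ {x} = 0) {Y : Type w} {Z : Type z}
    [MeasurableSpace Y] [StandardBorelSpace Y] [MeasurableSpace Z] {π : X → Y} {ρ : X → Z}
    (hπ : Measurable π) (hρ : Measurable ρ) (hd : DistalOver G μ π ρ)
    (hYZ : @LeMod X mX μ (MeasurableSpace.comap π inferInstance)
      (MeasurableSpace.comap ρ inferInstance)) :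
    outerRokhlin G μ (MeasurableSpace.comap ρ inferInstance) =
      outerRokhlin G μ (MeasurableSpace.comap π inferInstance) := by
  apply le_antisymm
  · refine le_iInf fun b => le_iInf fun hb => le_iInf fun hbY => ?_
    refine ENNReal.le_of_forall_pos_le_add fun ε hε _ => ?_
    obtain ⟨a, ham, hae, hagen⟩ := exists_small_generating (G := G) μ hna hπ hρ hd
      (ENNReal.coe_pos.2 hε)
    have hgen : @LeMod X mX μ (MeasurableSpace.comap ρ inferInstance) (sigmaG G (join b a)) :=
      hagen.trans (LeMod.sup (LeMod.of_le (sigmaG_join_right G b a))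
        (hbY.trans (LeMod.of_le (sigmaG_join_left G b a))))
    calc outerRokhlin G μ (MeasurableSpace.comap ρ inferInstance) ≤ shannon μ (join b a) :=
          iInf_le_of_le _ (iInf_le_of_le (measurable_join hb ham) (iInf_le _ hgen))
      _ ≤ shannon μ b + shannon μ a := shannon_join_le μ hb ham
      _ ≤ shannon μ b + ε := by gcongr
  · refine le_iInf fun b => le_iInf fun hb => le_iInf fun hbZ => ?_
    exact iInf_le_of_le b (iInf_le_of_le hb (iInf_le _ (hYZ.trans hbZ)))

omit [Countable G] [StandardBorelSpace X] [MeasurableConstSMul G X] [IsProbabilityMeasure μ]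
  [ErgodicSMul G X μ] in
lemma rokhlin_eq_outer :
    rokhlin G μ = outerRokhlin G μ (MeasurableSpace.comap (id : X → X) inferInstance) := by
  unfold rokhlin outerRokhlin
  rw [MeasurableSpace.comap_id]

lemma rel_le_rokhlin {G : Type u} {X : Type v} [Group G] {F : MeasurableSpace X}
    [mX : MeasurableSpace X] [MulAction G X] (μ : Measure X) [IsProbabilityMeasure μ]
    (hF : F ≤ mX) : relRokhlin G μ F ≤ rokhlin G μ := by
  refine le_iInf fun b => le_iInf fun hb => le_iInf fun hbZ => ?_
  refine iInf_le_of_le b (iInf_le_of_le hb (iInf_le_of_le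
    (LeMod.trans hbZ (LeMod.of_le le_sup_left)) ?_))
  exact condShannon_le μ hF hb

lemma rel_mono {G : Type u} {X : Type v} [Group G] {F F' : MeasurableSpace X}
    [mX : MeasurableSpace X] [MulAction G X] (μ : Measure X) [IsProbabilityMeasure μ]
    (hF : F ≤ mX) (hF' : F' ≤ mX) (hle : LeMod μ F F') :
    relRokhlin G μ F' ≤ relRokhlin G μ F := by
  refine le_iInf fun b => le_iInf fun hb => le_iInf fun hbZ => ?_
  refine iInf_le_of_le b (iInf_le_of_le hb (iInf_le_of_le
    (LeMod.trans hbZ (LeMod.sup (LeMod.of_le le_sup_left)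
      (hle.trans (LeMod.of_le le_sup_right)))) ?_))
  exact condShannon_mono μ hF hF' hle hb

/-- The relative Rokhlin entropy vanishes for distal extensions. -/
lemma rel_eq_zero (hna : ∀ x, μ {x} = 0) {Y : Type w}
    [MeasurableSpace Y] [StandardBorelSpace Y] {π : X → Y}
    (hπ : Measurable π) (hd : DistalOver G μ π (id : X → X)) :
    relRokhlin G μ (MeasurableSpace.comap π inferInstance) = 0 := by
  refine le_antisymm ?_ bot_le
  refine ENNReal.le_of_forall_pos_le_add fun ε hε _ => ?_
  rw [zero_add]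
  obtain ⟨a, ham, hae, hagen⟩ := exists_small_generating (G := G) μ hna hπ measurable_id hd
      (ENNReal.coe_pos.2 hε)
  rw [MeasurableSpace.comap_id] at hagen
  refine iInf_le_of_le a (iInf_le_of_le ham (iInf_le_of_le hagen ?_))
  exact (condShannon_le μ hπ.comap_le ham).trans hae

omit [StandardBorelSpace X] in
lemma shannon_const : shannon μ (fun _ : X => 0) = 0 := by
  unfold shannon
  rw [ENNReal.tsum_eq_zero]
  intro n
  by_cases h : n = 0
  · subst h
    have : (fun _ : X => 0) ⁻¹' {0} = (univ : Set X) := by ext; simp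
    rw [this]
    simp
  · have : (fun _ : X => 0) ⁻¹' {n} = (∅ : Set X) := by
      ext x; simp [Ne.symm h]
    rw [this]
    simp

/-- The outer Rokhlin entropy of a distal factor vanishes. -/
lemma outer_eq_zero (hna : ∀ x, μ {x} = 0) {Y : Type w} [MeasurableSpace Y] {π : X → Y}
    (hπ : Measurable π) (hd : DistalOver G μ (fun _ : X => PUnit.unit.{1}) π) :
    outerRokhlin G μ (MeasurableSpace.comap π inferInstance) = 0 := by
  have hle : MeasurableSpace.comap (fun _ : X => PUnit.unit.{1}) inferInstance ≤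
      (⊥ : MeasurableSpace X) := by
    rw [MeasurableSpace.comap_const]
  rw [outer_eq (G := G) μ hna measurable_const hπ hd (LeMod.of_le (hle.trans bot_le))]
  refine le_antisymm ?_ bot_le
  refine iInf_le_of_le (fun _ => 0) (iInf_le_of_le measurable_const (iInf_le_of_le
    (LeMod.of_le (hle.trans bot_le)) ?_))
  rw [shannon_const]

omit [StandardBorelSpace X] [MeasurableConstSMul G X] [ErgodicSMul G X μ] [Countable G] in
lemma exists_ball {K : Type t} [MeasurableSpace K] [MetricSpace K]
    [TopologicalSpace.SeparableSpace K] (f : X → K) (n : ℕ) :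
    ∃ c : K, 0 < μ (f ⁻¹' Metric.ball c (1 / (n + 1))) := by
  by_contra hcon
  push Not at hcon
  obtain ⟨s, hs, hcov⟩ := TopologicalSpace.exists_countable_dense K
  have h1 : (⋃ c ∈ s, Metric.ball c (1 / ((n : ℝ) + 1))) = univ := by
    refine eq_univ_of_forall fun x => ?_
    obtain ⟨c, hc, hd⟩ := Metric.mem_closure_iff.1 (hcov x) (1 / ((n : ℝ) + 1)) (by positivity)
    exact mem_iUnion₂.2 ⟨c, hc, hd⟩
  have h2 : μ (f ⁻¹' (⋃ c ∈ s, Metric.ball c (1 / ((n : ℝ) + 1)))) = 0 := by
    rw [preimage_iUnion₂, measure_biUnion_null_iff hs]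
    intro c _
    exact le_antisymm (hcon c) bot_le
  rw [h1, preimage_univ, measure_univ] at h2
  exact one_ne_zero h2

omit [Countable G] [StandardBorelSpace X] [MeasurableConstSMul G X] [ErgodicSMul G X μ] in
/-- Towers of isometric extensions are distal. -/
lemma distal_of_tower {Y : Type w} {Z : Type z} {π : X → Y} {ρ : X → Z}
    (h : IsometricTower G μ π ρ) : DistalOver G μ π ρ := by
  classical
  obtain ⟨I, hI, r, hr, K, iK, mK, bK, sK, f, X₀, hf, hX₀, hX₀', hiso, hdet⟩ := h
  have hen : Encodable (I × ℕ) := Encodable.ofCountable _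
  choose c hc using fun p : I × ℕ => exists_ball μ (f p.1) p.2
  let A : ℕ → Set X := fun k => ((Encodable.decode k : Option (I × ℕ))).elim univ
    (fun p => f p.1 ⁻¹' Metric.ball (c p) (1 / ((p.2 : ℝ) + 1)))
  have hAenc : ∀ p : I × ℕ, A (Encodable.encode p) =
      f p.1 ⁻¹' Metric.ball (c p) (1 / ((p.2 : ℝ) + 1)) := by
    intro p
    simp only [A, Encodable.encodek, Option.elim]
  refine ⟨A, X₀, fun k => ?_, hX₀, hX₀', ?_⟩
  · rcases hd : (Encodable.decode k : Option (I × ℕ)) with _ | p
    · simp only [A, hd, Option.elim]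
      exact ⟨MeasurableSet.univ, by simp⟩
    · simp only [A, hd, Option.elim]
      exact ⟨hf p.1 Metric.isOpen_ball.measurableSet, hc p⟩
  · intro x hx x' hx' hπ hn
    refine hdet x hx x' hx' hπ fun i => ?_
    induction i using hr.induction with
    | _ i ih =>
      rw [← dist_le_zero]
      refine le_of_forall_pos_le_add fun ε hε => ?_
      obtain ⟨n, hn'⟩ := exists_nat_gt (2 / ε)
      obtain ⟨g, hg1, hg2⟩ := hn (Encodable.encode (i, n))
      rw [hAenc] at hg1 hg2
      rw [← hiso i x hx x' hx' hπ ih g, zero_add]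
      have h1 : dist (f i (g • x)) (c (i, n)) < 1 / ((n : ℝ) + 1) := hg1
      have h2 : dist (f i (g • x')) (c (i, n)) < 1 / ((n : ℝ) + 1) := hg2
      have h3 : dist (f i (g • x)) (f i (g • x')) ≤
          dist (f i (g • x)) (c (i, n)) + dist (f i (g • x')) (c (i, n)) :=
        dist_triangle_right _ _ _
      have h4 : 1 / ((n : ℝ) + 1) ≤ ε / 2 := by
        rw [div_le_div_iff₀ (by positivity) (by norm_num)]
        rw [div_lt_iff₀ hε] at hn'
        nlinarith
      linarith

end Pool.Agent.Lib.MP_0393a7_an
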