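import Pool.Agent.Lib.MP_0393a7_an.Defs

/-!
Small sets of positive measure, ergodicity, and Borel separation.
-/

open MeasureTheory Set Filter Topology
open scoped ENNReal

namespace Pool.Agent.Lib.MP_0393a7_an

universe u v w z

/-- In a nonatomic standard Borel space every set of positive measure has subsets of arbitrarily
small positive measure. -/
lemma exists_small {X : Type v} [MeasurableSpace X] [StandardBorelSpace X] (μ : Measure X)
    [IsProbabilityMeasure μ] (hna : ∀ x, μ {x} = 0) {A : Set X} (hA : MeasurableSet A)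
    (h0 : 0 < μ A) {ε : ℝ≥0∞} (hε : 0 < ε) :
    ∃ B ⊆ A, MeasurableSet B ∧ 0 < μ B ∧ μ B < ε := by
  classical
  set e : X → ℝ := embeddingReal X with he
  have hem : MeasurableEmbedding e := measurableEmbedding_embeddingReal X
  set ν : Measure ℝ := (μ.restrict A).map e with hν
  have hνapp : ∀ s, MeasurableSet s → ν s = μ (e ⁻¹' s ∩ A) := fun s hs => by
    rw [hν, Measure.map_apply hem.measurable hs, Measure.restrict_apply (hem.measurable hs)]
  have hsing : ∀ t : ℝ, ν {t} = 0 := by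
    intro t
    rw [hνapp _ (measurableSet_singleton t)]
    have hsub : (e ⁻¹' {t}).Subsingleton := by
      intro x hx y hy
      exact hem.injective (by rw [mem_preimage, mem_singleton_iff] at hx hy; rw [hx, hy])
    refine measure_mono_null inter_subset_left ?_
    rcases hsub.eq_empty_or_singleton with h | ⟨x, h⟩
    · rw [h]; simp
    · rw [h]; exact hna x
  have hU : ∀ t : ℝ, ∃ U : Set ℝ, U ∈ 𝓝 t ∧ IsOpen U ∧ ν U < ε := by
    intro t
    obtain ⟨U, h1, h2, h3⟩ := Set.exists_isOpen_lt_of_lt ({t} : Set ℝ) ε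
      (by rw [hsing t]; exact hε : ν {t} < ε)
    exact ⟨U, h2.mem_nhds (h1 rfl), h2, h3⟩
  choose U hU1 hU2 hU3 using hU
  obtain ⟨s, hs, hcov⟩ := TopologicalSpace.countable_cover_nhds hU1
  have hex : ∃ t ∈ s, 0 < ν (U t) := by
    by_contra hcon
    push Not at hcon
    have h1 : ν (⋃ t ∈ s, U t) = 0 := by
      rw [measure_biUnion_null_iff hs]
      intro t ht
      exact le_antisymm (hcon t ht) bot_le
    rw [hcov, hνapp _ MeasurableSet.univ, preimage_univ, univ_inter] at h1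
    exact h0.ne' h1
  obtain ⟨t, -, ht⟩ := hex
  rw [hνapp _ (hU2 t).measurableSet] at ht
  have h3 := hU3 t
  rw [hνapp _ (hU2 t).measurableSet] at h3
  exact ⟨e ⁻¹' U t ∩ A, inter_subset_right,
    (hem.measurable (hU2 t).measurableSet).inter hA, ht, h3⟩

/-- By ergodicity almost every point enters a given set of positive measure. -/
lemma ae_exists_smul_mem {G : Type u} {X : Type v} [Group G] [Countable G] [MeasurableSpace X]
    [MulAction G X] [MeasurableConstSMul G X] (μ : Measure X) [ErgodicSMul G X μ] {B : Set X}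
    (hB : MeasurableSet B) (h0 : 0 < μ B) : ∀ᵐ x ∂μ, ∃ g : G, g • x ∈ B := by
  set U : Set X := ⋃ g : G, (fun x => g • x) ⁻¹' B with hU
  have hUm : MeasurableSet U := MeasurableSet.iUnion fun g => measurable_const_smul g hB
  have hinv : ∀ g : G, (g • ·) ⁻¹' U =ᵐ[μ] U := by
    intro g
    have : (fun x => g • x) ⁻¹' U = U := by
      ext x
      simp only [hU, preimage_iUnion, mem_iUnion, mem_preimage]
      constructor
      · rintro ⟨h, hh⟩; exact ⟨h * g, by rwa [mul_smul]⟩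
      · rintro ⟨h, hh⟩; exact ⟨h * g⁻¹, by rwa [mul_smul, inv_smul_smul]⟩
    exact Filter.EventuallyEq.of_eq this
  have hc := aeconst_of_forall_preimage_smul_ae_eq G hUm.nullMeasurableSet hinv
  have hne : ¬ (U =ᵐ[μ] (∅ : Set X)) := by
    intro h
    have h1 : μ U = 0 := by rw [measure_congr h]; simp
    have h2 : B ⊆ U := fun x hx => mem_iUnion.2 ⟨1, by simpa using hx⟩
    exact h0.ne' (measure_mono_null h2 h1)
  rcases (eventuallyConst_set'.1 hc) with h | h
  · exact absurd h hne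
  · have := eventuallyEq_univ.1 h
    filter_upwards [this] with x hx
    obtain ⟨g, hg⟩ := mem_iUnion.1 hx
    exact ⟨g, hg⟩

/-- If, on a conull set, `Φ x` determines `ρ x`, then every set in the σ-algebra of `ρ` is,
modulo null sets, in the σ-algebra of `Φ`. -/
lemma leMod_of_separates {X : Type v} {W : Type w} {Z : Type z} [mX : MeasurableSpace X]
    [StandardBorelSpace X] [MeasurableSpace W] [StandardBorelSpace W] [MeasurableSpace Z]
    (μ : Measure X) {Φ : X → W} (hΦ : Measurable Φ) {ρ : X → Z} (hρ : Measurable ρ) {X₁ : Set X}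
    (h1 : MeasurableSet X₁) (hX₁ : μ X₁ᶜ = 0)
    (hsep : ∀ x ∈ X₁, ∀ x' ∈ X₁, Φ x = Φ x' → ρ x = ρ x') :
    LeMod μ (MeasurableSpace.comap ρ inferInstance) (MeasurableSpace.comap Φ inferInstance) := by
  let _ := upgradeStandardBorel W
  rintro s ⟨C, hC, rfl⟩
  have hA1 : AnalyticSet (Φ '' (ρ ⁻¹' C ∩ X₁)) := ((hρ hC).inter h1).analyticSet_image hΦ
  have hA2 : AnalyticSet (Φ '' (ρ ⁻¹' Cᶜ ∩ X₁)) := ((hρ hC.compl).inter h1).analyticSet_image hΦ
  have hdis : Disjoint (Φ '' (ρ ⁻¹' C ∩ X₁)) (Φ '' (ρ ⁻¹' Cᶜ ∩ X₁)) := by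
    rw [Set.disjoint_left]
    rintro _ ⟨x, ⟨hx1, hx2⟩, rfl⟩ ⟨x', ⟨hx1', hx2'⟩, hxx⟩
    have := hsep x' hx2' x hx2 hxx
    exact hx1' (by rw [this]; exact hx1)
  obtain ⟨D, hD1, hD2, hD3⟩ := hA1.measurablySeparable hA2 hdis
  refine ⟨Φ ⁻¹' D, ⟨D, hD3, rfl⟩, ?_⟩
  have hae : ∀ᵐ x ∂μ, x ∈ X₁ := by
    rw [ae_iff]; exact hX₁
  rw [Filter.eventuallyEq_set]
  filter_upwards [hae] with x hx
  constructor
  · intro hxC
    exact hD1 ⟨x, ⟨hxC, hx⟩, rfl⟩
  · intro hxD
    by_contra hxC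
    exact (Set.disjoint_left.1 hD2) ⟨x, ⟨hxC, hx⟩, rfl⟩ hxD

end Pool.Agent.Lib.MP_0393a7_an
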